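import Pool.Agent.U527.Lc.Full

/-!
# Hyperplane sections of Kakeya sets of small dimension are large

Let `K ⊆ ℝⁿ`, `n ≥ 3`, contain a segment in every direction of a set of directions of positive measure
(for instance, a Kakeya set).  If `dim_H K < n - ((n - 2)/(n - 1)) s`, then in every direction `v`
there is an open interval `J` such that ALL the sections `K ∩ {⟨v, x⟩ = q}`, `q ∈ J`, have packing
dimension larger than `s`.  (The bush argument gives this only for `dim_H K < n - s`.)  More generally,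
if the lines meet a set `Z` of packing dimension at most `s` in countably many affine planes of
dimension `d` then `dim_H K ≥ n - (1 - 1/d) s`; so if `K` contains a whole line in every direction then
`dim_H K + ((n - 2)/(n - 1)) dim_P (K ∩ H) ≥ n` for every hyperplane `H`.

Proof.  A bounded piece of `Z` is covered by `N ≤ C δ ^ (-s-ε)` balls of radius `δ`, with centres in an
affine plane of dimension `d`.  By the theorem of Chazelle and Welzl on spanning paths of low crossing
number (discrete geometry, Vapnik-Chervonenkis classes; proved in `Pool/Agent/U527/Lc`), there is a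
polygon through the `N` centres which every hyperplane of `ℝⁿ` crosses `O(N ^ (1 - 1/d) log² N)` times
at most.  For curves of such an order the Kakeya maximal estimate for the tubes which meet the curve,
with a loss linear in the order, is in the library (`W767.Kc`), as is the passage from maximal
estimates at single scales to the Hausdorff dimension (`Y245.Tr`).
-/

set_option autoImplicit false

open MeasureTheory Set Metric

namespace Pool.Agent.Results.MP_b1773a_an.HyperplaneSections

/-- Euclidean space `ℝⁿ`. -/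
abbrev E (n : ℕ) : Type := EuclideanSpace ℝ (Fin n)

/-- `dim_P Z ≤ s`: for every `s' > s` the set `Z` is covered by countably many sets `W j` of upper
Minkowski dimension at most `s'`, that is, `W j` has covers by at most `C δ ^ (-s')` balls of radius
`δ`, where `C` may depend on `j`. -/
def PackingDimLE {n : ℕ} (s : ℝ) (Z : Set (E n)) : Prop :=
  ∀ s' : ℝ, s < s' → ∃ W : ℕ → Set (E n), Z ⊆ ⋃ j, W j ∧
    ∀ j, ∃ C : ℝ, ∀ δ : ℝ, 0 < δ → δ ≤ 1 → ∃ P : Finset (E n),
      (P.card : ℝ) ≤ C * δ ^ (-s') ∧ ∀ z ∈ W j, ∃ y ∈ P, ‖z - y‖ ≤ δ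

/-- The section of `K` by the hyperplane `⟨v, x⟩ = q`. -/
def sec {n : ℕ} (K : Set (E n)) (v : E n) (q : ℝ) : Set (E n) := K ∩ {x | inner ℝ v x = q}

/-- `K` contains a segment of positive length in every direction `e ∈ S`. -/
def HasSegments {n : ℕ} (S : Set (sphere (0 : E n) 1)) (K : Set (E n)) : Prop :=
  ∀ e ∈ S, ∃ (a : E n) (r : ℝ), 0 < r ∧ ∀ t ∈ Icc (0:ℝ) r, a + t • (e : E n) ∈ K

/-- `K` contains a whole line in every direction `e ∈ S`. -/
def HasLines {n : ℕ} (S : Set (sphere (0 : E n) 1)) (K : Set (E n)) : Prop :=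
  ∀ e ∈ S, ∃ a : E n, ∀ t : ℝ, a + t • (e : E n) ∈ K

/-- For every `e ∈ S` some line with direction `e` through a point of `Z` has an intersection of
positive length (outer measure) with `K`. -/
def Through {n : ℕ} (S : Set (sphere (0 : E n) 1)) (Z K : Set (E n)) : Prop :=
  ∀ e ∈ S, ∃ z ∈ Z, volume {t : ℝ | z + t • (e : E n) ∈ K} ≠ 0

/-- Let `n ≥ 3`, let `S` be a set of directions (a subset of the unit sphere) of positive surface
(outer) measure and let `s ≥ 0`.

(1) Let `K ⊆ ℝⁿ` contain a segment of positive length in every direction `e ∈ S`.  If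
`dim_H K < n - ((n - 2)/(n - 1)) s` then for every vector `v ≠ 0` there are `a < b` such that for every
`q ∈ (a, b)` the section `{x ∈ K : ⟨v, x⟩ = q}` has packing dimension larger than `s`.

(2) Let `1 ≤ d ≤ n`, let `Z ⊆ ℝⁿ` be a set of packing dimension at most `s` which is contained in the
union of countably many affine subspaces of dimension at most `d`, and suppose that for every `e ∈ S`
some line with direction `e` through a point of `Z` has an intersection of positive length (outer
measure) with `K`.  Then `dim_H K ≥ n - (1 - 1/d) s`.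

(3) Let `K ⊆ ℝⁿ` contain a whole line in every direction `e ∈ S`, and let `H = {⟨v, x⟩ = q}`, `v ≠ 0`, be
a hyperplane such that `K ∩ H` has packing dimension at most `s`.  Then
`dim_H K ≥ n - ((n - 2)/(n - 1)) s`. -/
theorem result (n : ℕ) (hn : 3 ≤ n) (S : Set (sphere (0 : E n) 1))
    (hS : (volume : Measure (E n)).toSphere S ≠ 0) (s : ℝ) (hs : 0 ≤ s) (K : Set (E n)) :
    (HasSegments S K → dimH K < ENNReal.ofReal ((n:ℝ) - ((n:ℝ) - 2) / ((n:ℝ) - 1) * s) →
      ∀ v : E n, v ≠ 0 → ∃ a b : ℝ, a < b ∧ ∀ q ∈ Ioo a b, ¬ PackingDimLE s (sec K v q)) ∧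
    (∀ (d : ℕ), 1 ≤ d → d ≤ n → ∀ Z : Set (E n), PackingDimLE s Z →
      ∀ A : ℕ → AffineSubspace ℝ (E n), (∀ i, Module.finrank ℝ (A i).direction ≤ d) →
      (∀ z ∈ Z, ∃ i, z ∈ A i) → Through S Z K →
      ENNReal.ofReal ((n:ℝ) - (1 - 1 / (d:ℝ)) * s) ≤ dimH K) ∧
    (HasLines S K → ∀ (v : E n) (q : ℝ), v ≠ 0 → PackingDimLE s (sec K v q) →
      ENNReal.ofReal ((n:ℝ) - ((n:ℝ) - 2) / ((n:ℝ) - 1) * s) ≤ dimH K) := by
  classical
  obtain ⟨m, rfl⟩ : ∃ m, n = m + 1 := ⟨n - 1, by omega⟩
  have hm : 2 ≤ m := by omega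
  have hm0 : (m:ℝ) ≠ 0 := by positivity
  refine ⟨fun hK hdim v hv => ?_, fun d hd _ Z hZ A hA hZA hK => ?_, fun hK v q hv hP => ?_⟩
  · by_contra hcon
    push Not at hcon
    have hQ : Dense {q : ℝ | Pool.Agent.U527.Lc.PackLE s (K ∩ {x | inner ℝ v x = q})} := by
      refine dense_of_exists_between fun a b hab => ?_
      obtain ⟨q, hq, hP⟩ := hcon a b hab
      exact ⟨q, hP, hq.1, hq.2⟩
    have h := Pool.Agent.U527.Lc.dim_sections hm hs hv hQ hS hK
    have e : ((m + 1 : ℕ) : ℝ) - (((m + 1 : ℕ) : ℝ) - 2) / (((m + 1 : ℕ) : ℝ) - 1) * s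
        = (m:ℝ) + 1 - s * (1 - 1 / (m:ℝ)) := by
      push_cast
      have e1 : (m:ℝ) + 1 - 1 = m := by ring
      rw [e1]
      field_simp
      ring
    rw [e] at hdim
    exact absurd h (not_le.2 hdim)
  · rcases S.eq_empty_or_nonempty with rfl | ⟨e₀, he₀⟩
    · simp at hS
    obtain ⟨z₀, hz₀, -⟩ := hK e₀ he₀
    have h := Pool.Agent.U527.Lc.dim_pack hm hd hs hZ
      (fun i => if h : ((A i : Set (EuclideanSpace ℝ (Fin (m + 1))))).Nonempty then h.some else 0)
      (fun i => (A i).direction) hA ?_ hS hK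
    · have e : ((m + 1 : ℕ) : ℝ) - (1 - 1 / (d:ℝ)) * s = (m:ℝ) + 1 - s * (1 - 1 / (d:ℝ)) := by
        push_cast
        ring
      rw [e]
      exact h
    · intro z hz
      obtain ⟨i, hi⟩ := hZA z hz
      refine ⟨i, ?_⟩
      have hne : ((A i : Set (EuclideanSpace ℝ (Fin (m + 1))))).Nonempty := ⟨z, hi⟩
      simp only [dif_pos hne]
      have h1 := AffineSubspace.vsub_mem_direction hi hne.some_mem
      exact h1
  · have h := Pool.Agent.U527.Lc.dim_full hm hs hv q hP hS hK
    have e : ((m + 1 : ℕ) : ℝ) - (((m + 1 : ℕ) : ℝ) - 2) / (((m + 1 : ℕ) : ℝ) - 1) * s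
        = (m:ℝ) + 1 - s * (1 - 1 / (m:ℝ)) := by
      push_cast
      have e1 : (m:ℝ) + 1 - 1 = m := by ring
      rw [e1]
      field_simp
      ring
    rw [e]
    exact h

end Pool.Agent.Results.MP_b1773a_an.HyperplaneSections
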