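import Pool.Agent.U597.ID.Main

/-!
# MP_b1773a_an: intermediate dimensions of Kakeya sets in high dimensions

Hausdorff dimension allows covers by sets of all sizes, Minkowski dimension only covers by sets of
one size.  The `θ`-intermediate dimensions (Falconer, Fraser, Kempton) allow covers by sets with
diameters in `[δ ^ (1 / θ), δ]`.  The exponent `1.669587`, known for the Minkowski dimension
only, holds for all of them, and for sets with a part of positive length of a line in many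
directions.
-/

set_option autoImplicit false

open MeasureTheory Filter Topology

namespace Pool.Agent.Results.MP_b1773a_an.IntermediateDimensions

/-- Every cover of `K` by sets with diameters in `[ρ, δ]` has `∑ diam ^ s ≥ 1`. -/
def CoverBound {n : ℕ} (ρ δ s : ℝ) (K : Set (EuclideanSpace ℝ (Fin n))) : Prop :=
  ∀ (ι : Type) (t : ι → Set (EuclideanSpace ℝ (Fin n))), K ⊆ ⋃ i, t i →
    (∀ i, ENNReal.ofReal ρ ≤ Metric.ediam (t i) ∧ Metric.ediam (t i) ≤ ENNReal.ofReal δ) →
    1 ≤ ∑' i, Metric.ediam (t i) ^ s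

/-- Let `n ≥ 1`.  There is a function `M` (depending on `n` only) with `M δ → ∞` as `δ → 0+` such
that: if `U` is not a null set of directions, `K` contains a part of positive length of a line in
every direction of `U`, and `K` is covered by countably many sets, then one of these sets, `K'`,
satisfies for all `0 ≤ s < 1 + (n - 1) / 1.669587`: for all small `δ > 0`, every cover of `K'` by
sets with diameters in `[δ ^ M δ, δ]`, and for every `0 < θ ≤ 1` and all small `δ > 0` (depending on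
`θ`) every cover of `K'` by sets with diameters in `[δ ^ (1 / θ), δ]`, has `∑ diam ^ s ≥ 1`. -/
theorem result (n : ℕ) (hn : 1 ≤ n) : ∃ M : ℝ → ℝ, Tendsto M (𝓝[>] 0) atTop ∧
    ∀ U K : Set (EuclideanSpace ℝ (Fin n)),
      (volume : Measure (EuclideanSpace ℝ (Fin n))).toSphere
        {e : Metric.sphere (0 : EuclideanSpace ℝ (Fin n)) 1 |
          (e : EuclideanSpace ℝ (Fin n)) ∈ U} ≠ 0 →
      (∀ e ∈ U, ‖e‖ = 1 → ∃ a : EuclideanSpace ℝ (Fin n), 0 < volume {t : ℝ | a + t • e ∈ K}) →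
      ∀ Ks : ℕ → Set (EuclideanSpace ℝ (Fin n)), K ⊆ ⋃ i, Ks i →
        ∃ i, ∀ s : ℝ, 0 ≤ s → s < 1 + ((n : ℝ) - 1) / 1.669587 →
          (∀ᶠ δ in 𝓝[>] (0 : ℝ), CoverBound (δ ^ M δ) δ s (Ks i)) ∧
          ∀ θ : ℝ, 0 < θ → θ ≤ 1 →
            ∀ᶠ δ in 𝓝[>] (0 : ℝ), CoverBound (δ ^ (1 / θ)) δ s (Ks i) := by
  obtain ⟨d, rfl⟩ : ∃ d, n = d + 1 := ⟨n - 1, by omega⟩
  obtain ⟨M, hM, h⟩ := Pool.Agent.U597.ID.kakeya_intermediate d
  refine ⟨M, hM, ?_⟩
  intro U K hU hK Ks hcov
  have e1 : (((d + 1 : ℕ) : ℝ) - 1) = d := by push_cast; ring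
  have e2 : (1.669587 : ℝ) = 1669587 / 1000000 := by norm_num
  have hex : ∃ i, (volume : Measure (EuclideanSpace ℝ (Fin (d + 1)))).toSphere
      {e : Metric.sphere (0 : EuclideanSpace ℝ (Fin (d + 1))) 1 |
        (e : EuclideanSpace ℝ (Fin (d + 1))) ∈ {e | ‖e‖ = 1 ∧
          ∃ a : EuclideanSpace ℝ (Fin (d + 1)), 0 < volume {t : ℝ | a + t • e ∈ Ks i}}} ≠ 0 := by
    by_contra hcon
    push Not at hcon
    apply hU
    refine measure_mono_null ?_ (measure_iUnion_null hcon)
    intro e he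
    have he1 : ‖(e : EuclideanSpace ℝ (Fin (d + 1)))‖ = 1 := by simp
    obtain ⟨a, ha⟩ := hK _ he he1
    have h2 : ∃ i, volume {t : ℝ | a + t • (e : EuclideanSpace ℝ (Fin (d + 1))) ∈ Ks i} ≠ 0 := by
      by_contra hcon2
      push Not at hcon2
      refine ha.ne' (measure_mono_null ?_ (measure_iUnion_null hcon2))
      intro t ht
      obtain ⟨i, hi⟩ := Set.mem_iUnion.1 (hcov ht)
      exact Set.mem_iUnion.2 ⟨i, hi⟩
    obtain ⟨i, hi⟩ := h2
    exact Set.mem_iUnion.2 ⟨i, he1, a, pos_iff_ne_zero.2 hi⟩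
  obtain ⟨i, hi⟩ := hex
  refine ⟨i, fun s hs0 hs1 => ?_⟩
  rw [e1, e2] at hs1
  have key := h _ (Ks i) (fun e he => he) hi s hs0 hs1
  refine ⟨key, fun θ hθ0 _ => ?_⟩
  filter_upwards [key, hM.eventually (eventually_ge_atTop (1 / θ)),
    Ioo_mem_nhdsGT (show (0 : ℝ) < 1 by norm_num)] with δ h1 h2 h3 ι t ht htd
  refine h1 ι t ht fun j => ⟨le_trans (ENNReal.ofReal_le_ofReal ?_) (htd j).1, (htd j).2⟩
  exact Real.rpow_le_rpow_of_exponent_ge h3.1 h3.2.le h2

end Pool.Agent.Results.MP_b1773a_an.IntermediateDimensions
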