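import Pool.Agent.U527.Rd.Fin

set_option autoImplicit false

/-!
# MP_b1773a: Kakeya sets over families of lines which are reducible to dimension `r`

Let `2 ≤ r ≤ n`.  A measurable family of lines in `ℝ^n`, one line `a e + ℝ e` for every direction
`e`, is *reducible to dimension `r` along the set `V` of vectors* if `n ≤ r`, or if there is a
subspace `W ⊇ V` of codimension two such that for every half-hyperplane `H` bounded by `W` the
lines of the family with direction in `H` lie in one hyperplane parallel to `H`, and form there a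
family of `ℝ^(n-1)` which is reducible to dimension `r` along `V`.  (In dimension `r` the family is
arbitrary.  No regularity is assumed, the position of the hyperplanes is an arbitrary function
of `H`.)

We prove: if a set `K ⊆ ℝ^n`, for every direction `e` in a set of positive outer measure, contains
a set of positive length of some line which is parallel to `e` and meets `a e + V` (the choice of
this line is arbitrary), then `K` has Hausdorff dimension at least `n - (r - 2) / 2`; for `r ≥ 10`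
also `n - (r - 1) (1 - 1/c)` with the parameter `c > 1.6751...` of the known hybrid estimates in
`ℝ^r`.  More generally the loss of dimension is at most the loss in the estimate of the Kakeya
maximal function on `L^r(ℝ^r)`.  There are uniform quantitative versions for unit segments.

For `r = n` this is the known bound `(n + 2) / 2` for all Kakeya sets.  Examples with `r < n` are
the families of lines that meet a fixed affine subspace of dimension `r - 1` (here `a` is
constant and `V` is a subspace), and, with `V = {0}`, arbitrary measurable families which are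
reducible to dimension `r`.  If `V` is a subspace of dimension `r - 1`, then the condition says that
the projections of the lines to the orthogonal complement of `V` are the lines of a given
measurable family, which is reducible to dimension two.
-/

open MeasureTheory Set Filter Topology ENNReal NNReal Metric

namespace Pool.Agent.Results.MP_b1773a_an.ReducibleDimension

open Pool.Agent.H742R2.Kk (E emb)

/-- The linear isometries of `ℝ^n`. -/
abbrev Iso (n : ℕ) : Type := E n ≃ₗᵢ[ℝ] E n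

/-- The image of a point. -/
noncomputable def act {n : ℕ} (U : Iso n) (x : E n) : E n := U x

/-- The first two coordinates of `x` vanish. -/
def Tail {k : ℕ} (x : E (k + 2)) : Prop := x 0 = 0 ∧ x 1 = 0

/-- The lines with direction `emb θ 0 e`, `e ∈ ℝ^(n-1)`, `e 0 > 0`, of the family `b` lie in the
hyperplane `{emb θ β p}`, and there they are the lines `a' e + ℝ e`.
Here `emb θ β (y, z) = (y cos θ - β sin θ, y sin θ + β cos θ, z)`. -/
def InHyperplane {k : ℕ} (θ β : ℝ) (b : E (k + 2) → E (k + 2)) (a' : E (k + 1) → E (k + 1)) :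
    Prop :=
  ∀ e : E (k + 1), ‖e‖ = 1 → 0 < e 0 → ∃ s : ℝ, b (emb θ 0 e) = emb θ β (a' e + s • e)

/-- The family of lines `a e + ℝ e` in `ℝ^n`, `e` a unit vector, is reducible to dimension `r`
along `V`: `a` is measurable and `n ≤ r`, or there is an isometry `U` of `ℝ^n` such that `V` lies
in the image `W` under `U` of `{x | x 0 = x 1 = 0}`, and such that for all `θ` the lines with
direction `U (emb θ 0 e)`, `e 0 > 0`, lie in the hyperplane `{U (emb θ (β θ) p)}`, and there they
are the lines `a' θ e + ℝ e` of a family in `ℝ^(n-1)` which is reducible to dimension `r` along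
`V` (in the coordinates of the hyperplane).  The numbers `β θ` and the families `a' θ` depend
arbitrarily on `θ`. -/
inductive ReducibleAlong (r : ℕ) : (n : ℕ) → Set (E n) → (E n → E n) → Prop
  | base {n : ℕ} {V : Set (E n)} {a : E n → E n} (hn : n ≤ r) (ha : Measurable a) :
      ReducibleAlong r n V a
  | step {k : ℕ} {V : Set (E (k + 2))} {a : E (k + 2) → E (k + 2)} (ha : Measurable a)
      (U : Iso (k + 2)) (hV : ∀ v ∈ V, ∃ x, Tail x ∧ v = act U x)
      (β : ℝ → ℝ) (a' : ℝ → E (k + 1) → E (k + 1))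
      (h : ∀ θ, ReducibleAlong r (k + 1) {w | act U (emb θ 0 w) ∈ V} (a' θ))
      (hl : ∀ θ, InHyperplane θ (β θ) (fun x => act U.symm (a (act U x))) (a' θ)) :
      ReducibleAlong r (k + 2) V a

/-- Surface measure (outer measure) of a set of directions. -/
noncomputable def surf {n : ℕ} (S : Set (sphere (0 : E n) 1)) : ℝ≥0∞ :=
  (volume : Measure (E n)).toSphere S

/-- The closed tube of length `1` and radius `δ` with centre `b` and axis direction `e`. -/
def tube {n : ℕ} (δ : ℝ) (b e : E n) : Set (E n) :=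
  {y | |inner ℝ (y - b) e| ≤ 1 / 2 ∧ ‖(y - b) - (inner ℝ (y - b) e : ℝ) • e‖ ≤ δ}

/-- The Kakeya maximal function of a nonnegative function. -/
noncomputable def kakeyaMax {n : ℕ} (δ : ℝ) (f : E n → ℝ≥0∞) (e : E n) : ℝ≥0∞ :=
  ⨆ b : E n, (volume (tube δ b e))⁻¹ * ∫⁻ y in tube δ b e, f y

/-- The Kakeya maximal function is bounded on `L^r(ℝ^r)` with norm at most
`(C δ^(-(η+ε)))^(1/r)`, for every `ε > 0`. -/
def MaximalLoss (r : ℕ) (η : ℝ) : Prop := ∀ ε : ℝ, 0 < ε → ∃ C : ℝ, 0 < C ∧
  ∀ (δ : ℝ) (f : E r → ℝ≥0∞), 0 < δ → δ < 1 → Measurable f →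
    ∫⁻ e : sphere (0 : E r) 1, kakeyaMax δ f (e : E r) ^ r ∂(volume : Measure (E r)).toSphere ≤
      ENNReal.ofReal (C * δ ^ (-(η + ε))) * ∫⁻ y, f y ^ r

/-- The conditions of the hybrid estimates in `ℝ^r`; they hold for all `c > 1.67513` with
`x = 0`. -/
def Hybrid (r : ℕ) (x c : ℝ) : Prop :=
  10 ≤ r ∧ 0 ≤ x ∧ x ≤ 1 ∧ 1 < c ∧
    0 < ((r : ℝ) - 1) * (c ^ 3 - 4 * c + 2) + x * (c * (3 * c - 1 - c ^ 2)) ∧
    4 * c ^ 2 + 5 * c - 4 + x * (3 * c ^ 2 + 1) <
      ((r : ℝ) - 1) * (c ^ 2 - 1) + x * (3 * c - 1 - c ^ 2)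

/-- The admissible losses: `(r - 2) / 2`; for `r ≥ 10` also `(r - 1) (1 - 1/c)` under the conditions
of the hybrid estimates in `ℝ^r`; and every `η ≥ 0` which is the loss of the Kakeya maximal
function on `L^r(ℝ^r)`. -/
def Loss (r : ℕ) (η : ℝ) : Prop :=
  η = ((r : ℝ) - 2) / 2 ∨ (∃ x c : ℝ, Hybrid r x c ∧ η = ((r : ℝ) - 1) * (1 - 1 / c)) ∨
    (0 ≤ η ∧ MaximalLoss r η)

/-- For all `e` in `S`, for some `i`, the set `K` contains a set of positive length of a line which
is parallel to `e` and meets `a i e + V i`. -/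
def MeetsLines {n : ℕ} (V : ℕ → Set (E n)) (a : ℕ → E n → E n) (S : Set (sphere (0 : E n) 1))
    (K : Set (E n)) : Prop :=
  ∀ e ∈ S, ∃ i, ∃ p ∈ V i, 0 < volume {t : ℝ | a i e + p + t • (e : E n) ∈ K}

/-- For all `e` in `S` the set `K` contains a unit segment of a line which is parallel to `e` and
meets `a e + V`. -/
def HasSegments {n : ℕ} (V : Set (E n)) (a : E n → E n) (S : Set (sphere (0 : E n) 1))
    (K : Set (E n)) : Prop :=
  ∀ e ∈ S, ∃ p ∈ V, ∃ t : ℝ, ∀ u : ℝ, |u| ≤ 1 / 2 → a e + p + (t + u) • (e : E n) ∈ K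

/-- The affine subspace through `c` which is spanned by the `d` vectors `u j`. -/
def plane {n d : ℕ} (c : E n) (u : Fin d → E n) : Set (E n) :=
  {p | ∃ x : Fin d → ℝ, p = c + ∑ j, x j • u j}

/-- For all `e` in `S`, for some `i`, the set `K` contains a set of positive length of a line which
is parallel to `e` and meets `plane (c i) (u i)`. -/
def MeetsPlanes {n d : ℕ} (c : ℕ → E n) (u : ℕ → Fin d → E n) (S : Set (sphere (0 : E n) 1))
    (K : Set (E n)) : Prop :=
  ∀ e ∈ S, ∃ i, ∃ p ∈ plane (c i) (u i), 0 < volume {t : ℝ | p + t • (e : E n) ∈ K}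

/-- The `δ`-neighbourhoods of `K` have measure at least `c δ^(η+ε) |S|`. -/
def NbhdBound {n : ℕ} (η ε c : ℝ) (S : Set (sphere (0 : E n) 1)) (K : Set (E n)) : Prop :=
  ∀ δ : ℝ, 0 < δ → δ < 1 → ENNReal.ofReal (c * δ ^ (η + ε)) * surf S ≤ volume (thickening δ K)

/-- For countable covers of `K` by balls of radii `ρ i ≤ 1/2` the sum of the `(ρ i)^(n-η-ε)` is at
least `c |S|`. -/
def ContentBound {n : ℕ} (η ε c : ℝ) (S : Set (sphere (0 : E n) 1)) (K : Set (E n)) : Prop :=
  ∀ (x : ℕ → E n) (ρ : ℕ → ℝ), (∀ i, 0 < ρ i ∧ ρ i ≤ 1 / 2) → K ⊆ ⋃ i, closedBall (x i) (ρ i) →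
    ENNReal.ofReal c * surf S ≤ ∑' i, ENNReal.ofReal (ρ i ^ ((n : ℝ) - η - ε))

/-- The form used in the proofs. -/
def Aux (q : ℕ) : (n : ℕ) → Set (E n) → (E n → E n) → Prop
  | 0, _, _ => True
  | (m + 1), V, a => Pool.Agent.U527.Rd.RedAlong q m V a

theorem aux_of {q n : ℕ} {V : Set (E n)} {a : E n → E n} (h : ReducibleAlong (q + 1) n V a) :
    Aux q n V a := by
  induction h with
  | base hn ha =>
    rename_i n V a
    match n, V, a, hn, ha with
    | 0, _, _, _, _ => exact trivial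
    | 1, _, _, _, ha => exact ha
    | (k + 2), _, _, hn, ha => exact ⟨ha, fun hq => absurd hq (by omega)⟩
  | step ha U hV β a' h hl ih =>
    refine ⟨ha, fun _ => ⟨U, ?_, fun θ => ⟨β θ, a' θ, ih θ, ?_⟩⟩⟩
    · intro v hv
      obtain ⟨x, hx, rfl⟩ := hV v hv
      unfold act
      rw [LinearIsometryEquiv.symm_apply_apply]
      exact hx
    · intro e he he0
      obtain ⟨s, hs⟩ := hl θ e he he0
      refine ⟨s, ?_⟩
      have h1 := congrArg U hs
      unfold act at h1
      rw [LinearIsometryEquiv.apply_symm_apply] at h1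
      exact h1

theorem lossLE_of {q : ℕ} (hq : 1 ≤ q) {η : ℝ} (h : Loss (q + 1) η) :
    0 ≤ η ∧ Pool.Agent.U527.Rd.LossLE q η := by
  have e0 : (((q + 1 : ℕ) : ℝ)) = q + 1 := by push_cast; ring
  have hq1 : (1 : ℝ) ≤ q := by exact_mod_cast hq
  rcases h with h | ⟨x, c, ⟨h10, h0, h1, hc, hg, hk⟩, h⟩ | ⟨h0, h⟩
  · rw [e0] at h
    have h2 : η = ((q : ℝ) - 1) / 2 := by rw [h]; ring
    subst h2
    refine ⟨by linarith, ?_⟩
    rcases Nat.lt_or_ge q 2 with h3 | h3
    · have : q = 1 := by omega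
      subst this
      have e1 : (((1 : ℕ) : ℝ) - 1) / 2 = 0 := by norm_num
      rw [e1]
      exact Pool.Agent.U527.Rd.loss_planar
    · exact Pool.Agent.U527.Rd.loss_wolff h3
  · have e1 : (((q + 1 : ℕ) : ℝ) - 1) = q := by push_cast; ring
    rw [e1] at hg hk h
    have h2 : η = (q : ℝ) - q / c := by rw [h]; ring
    subst h2
    refine ⟨?_, Pool.Agent.U527.Rd.loss_hybrid (by omega) ⟨h0, h1, hc, hg, hk⟩⟩
    have : (q : ℝ) / c ≤ q := div_le_self (by linarith) hc.le
    linarith
  · refine ⟨h0, Pool.Agent.U527.Rd.loss_of_max ?_⟩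
    intro ε hε
    obtain ⟨C, hC, hm⟩ := h ε hε
    refine ⟨C, hC, ?_⟩
    intro δ f hδ hδ1 hf
    have h3 := hm δ f hδ hδ1 hf
    have h4 : δ ^ (-(η + ε)) = δ⁻¹ ^ (η + ε) := by
      rw [Real.rpow_neg hδ.le, Real.inv_rpow hδ.le]
    rw [h4] at h3
    exact h3

theorem bounds_of {m : ℕ} {η ε c : ℝ} (hε : 0 < ε) {S : Set (sphere (0 : E (m + 1)) 1)}
    {K : Set (E (m + 1))} (hc : 0 < c)
    (h : Pool.Agent.U527.Rd.Quant m (η + ε / 2) ((m : ℝ) + 1 - η - ε) c S K) :
    NbhdBound η ε c S K ∧ ContentBound η ε c S K := by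
  refine ⟨?_, ?_⟩
  · intro δ hδ hδ1
    refine le_trans ?_ (h.1 δ hδ hδ1)
    unfold surf
    gcongr ?_ * _
    apply ENNReal.ofReal_le_ofReal
    apply mul_le_mul_of_nonneg_left _ hc.le
    exact Real.rpow_le_rpow_of_exponent_ge hδ hδ1.le (by linarith)
  · have e1 : (((m + 1 : ℕ) : ℝ)) - η - ε = (m : ℝ) + 1 - η - ε := by push_cast; ring
    unfold ContentBound
    rw [e1]
    exact h.2

/-- **Kakeya sets over families of lines which are reducible to dimension `r`.** -/
theorem result (n r : ℕ) (hr : 2 ≤ r) (hrn : r ≤ n) (η : ℝ) (hη : Loss r η) :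
    (∀ V a S K, (∀ i, ReducibleAlong r n (V i) (a i)) → MeetsLines V a S K → 0 < surf S →
      ENNReal.ofReal ((n : ℝ) - η) ≤ dimH K) ∧
    (∀ ε : ℝ, 0 < ε → ε ≤ n - η → ∃ c : ℝ, 0 < c ∧ ∀ V a S K, ReducibleAlong r n V a →
      HasSegments V a S K → NbhdBound η ε c S K ∧ ContentBound η ε c S K) ∧
    (∀ c u S K, MeetsPlanes (n := n) (d := r - 1) c u S K → 0 < surf S →
      ENNReal.ofReal ((n : ℝ) - η) ≤ dimH K) := by
  obtain ⟨m, rfl⟩ : ∃ m, n = m + 1 := ⟨n - 1, by omega⟩
  obtain ⟨q, rfl⟩ : ∃ q, r = q + 1 := ⟨r - 1, by omega⟩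
  have hqm : q ≤ m := by omega
  have hm : 1 ≤ m := by omega
  obtain ⟨hη0, hL⟩ := lossLE_of (by omega) hη
  have e0 : (((m + 1 : ℕ) : ℝ)) = (m : ℝ) + 1 := by push_cast; ring
  have hpig : ∀ (S : Set (sphere (0 : E (m + 1)) 1)) (P : ℕ → Set (sphere (0 : E (m + 1)) 1)),
      0 < surf S → (∀ e ∈ S, ∃ i, e ∈ P i) → ∃ i, surf (S ∩ P i) ≠ 0 := by
    intro S P hS h
    by_contra hcon
    push Not at hcon
    apply hS.ne'
    have h1 : S ⊆ ⋃ i, S ∩ P i := by
      intro e he
      obtain ⟨i, hi⟩ := h e he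
      exact mem_iUnion.2 ⟨i, he, hi⟩
    exact measure_mono_null h1 (measure_iUnion_null hcon)
  refine ⟨?_, ?_, ?_⟩
  · intro V a S K ha hK hS
    rw [e0]
    obtain ⟨i, hi⟩ := hpig S (fun i => {e | ∃ p ∈ V i,
      0 < volume {t : ℝ | a i e + p + t • (e : E (m + 1)) ∈ K}}) hS hK
    refine Pool.Agent.U527.Rd.dim_along hqm hm hη0 hL (aux_of (ha i)) hi ?_
    rintro e ⟨_, p, hp, h⟩
    exact ⟨p, hp, h.ne'⟩
  · intro ε hε hεn
    rw [e0] at hεn
    obtain ⟨A, hA, h⟩ := Pool.Agent.U527.Rd.maxHyp_along hqm hm hη0 hL (half_pos hε)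
    obtain ⟨c, hc, hq⟩ := Pool.Agent.U527.Rd.quant_of (m := m) (p := m + 1) (η := η)
      (s := (m : ℝ) + 1 - η - ε) (ε := ε / 2) (by linarith) hη0 (by linarith) (by ring) hA
    refine ⟨c, hc, ?_⟩
    intro V a S K ha hK
    unfold HasSegments at hK
    choose! p hp t hu using hK
    refine bounds_of hε hc (hq univ univ S (fun e => a e + p e) (h V a (aux_of ha) S p hp univ)
      (fun _ _ _ _ => mem_univ _) K ?_)
    intro e he
    exact ⟨t e, mem_univ _, hu e he⟩
  · intro c u S K hK hS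
    rw [e0]
    obtain ⟨i, hi⟩ := hpig S (fun i => {e | ∃ p ∈ plane (c i) (u i),
      0 < volume {t : ℝ | p + t • (e : E (m + 1)) ∈ K}}) hS hK
    have hfr : Module.finrank ℝ (Submodule.span ℝ (range (u i))) ≤ q := by
      have h1 := finrank_range_le_card (R := ℝ) (u i)
      rw [Fintype.card_fin] at h1
      exact h1
    refine Pool.Agent.U527.Rd.dim_along hqm hm hη0 hL
      (Pool.Agent.U527.Rd.along_const m (Submodule.span ℝ (range (u i))) hfr (c i)) hi ?_
    rintro e ⟨_, p, ⟨x, rfl⟩, h⟩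
    refine ⟨∑ j, x j • u i j, ?_, h.ne'⟩
    exact Submodule.sum_mem _ fun j _ =>
      Submodule.smul_mem _ _ (Submodule.subset_span (mem_range_self j))

end Pool.Agent.Results.MP_b1773a_an.ReducibleDimension
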