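import Pool.Agent.U530.TK.Main

/-!
# MP_b1773a: Kakeya sets: uniform bounds below the critical dimensions, and typical Kakeya sets

Q1 and Q2 ask whether every Kakeya set of `ℝ^n` (a compact set which contains a unit segment in
every direction) has Hausdorff dimension `n`, respectively lower Minkowski dimension `n`. The
(nonempty) Kakeya sets of `ℝ^n` are a closed set `KSpace n` of the complete metric space of all
nonempty compact sets with the Hausdorff metric; *typical* means outside a set of first category of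
`KSpace n` (`residual`). Let `n ≥ 1`.

* **Alternative for the Hausdorff contents.** For every `s > 0` either there is `c > 0` such that
  all coverings `(t i)` of all Kakeya sets of `ℝ^n` satisfy `∑ diam (t i) ^ s ≥ c`, or typical
  Kakeya sets have `s`-dimensional Hausdorff measure zero.
* **Alternative for the volumes of neighbourhoods.** For every real `s` either there is `c > 0` with
  `|N_δ K| ≥ c δ ^ (n - s)` for all Kakeya sets `K` and all `0 < δ < 1`, or for typical Kakeya sets
  `K` this fails for every `c > 0` at arbitrarily small `δ`.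
* **One critical Kakeya set.** There is a Kakeya set `K₀` which has at the same time the least
  Hausdorff dimension and the least lower Minkowski dimension of all Kakeya sets of `ℝ^n`, and upper
  Minkowski dimension `n`; typical Kakeya sets have the same three dimensions. Below the two
  dimensions of `K₀` the uniform bounds hold, above the Hausdorff dimension of `K₀` typical Kakeya
  sets are null sets of the Hausdorff measure, and above the lower Minkowski dimension the uniform
  bounds fail for typical Kakeya sets.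
* **Q1 and Q2.** So Q1 for `n` holds if and only if for every `0 < s < n` the `s`-dimensional
  contents of all Kakeya sets are bounded below by one positive constant, and if and only if the
  Kakeya sets of dimension `n` are not a set of first category. Q2 for `n` (for every Kakeya set `K`
  and `ε > 0` there is `c = c(K, ε) > 0` with `|N_δ K| ≥ c δ ^ ε`) holds if and only if `c` can be
  chosen independent of `K`, and if and only if this holds for a set of Kakeya sets which is not of
  first category.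

Ideas. (a) A given Kakeya set `K` is close to a finite union of pieces, each of which contains unit
segments in all directions of a small cap and lies close to one unit segment of `K`; such a piece is
obtained from any Kakeya set `K₁` by a linear map which fixes the axis and squeezes its orthogonal
complement, finitely many translations along the axis, and truncation; the number of translations
and the linear maps depend only on the diameter of `K₁` (and on `K`). (b) Every Kakeya set can be
moved, piece by piece in the cells of the unit lattice, into the ball of radius `2 n + 1`, so that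
it remains a Kakeya set and its contents and the volumes of its neighbourhoods grow at most by the
factor `6 ^ n`; this is why the constants are uniform over Kakeya sets of all diameters.
-/

open Set Metric Filter Topology MeasureTheory TopologicalSpace
open scoped ENNReal NNReal

namespace Pool.Agent.Results.MP_b1773a_an.UniformKakeyaBounds

open Pool.Agent.U26.TK Pool.Agent.U530.TK

/-- The `s`-dimensional Hausdorff contents of all Kakeya sets of `ℝ^n` are bounded below by one
positive number: every countable covering `(t i)` of every Kakeya set has `∑ diam (t i) ^ s ≥ c`. -/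
def UniformContent (n : ℕ) (s : ℝ) : Prop :=
  ∃ c : ℝ≥0∞, 0 < c ∧ ∀ K : Set (EuclideanSpace ℝ (Fin n)), IsKakeya K →
    ∀ t : ℕ → Set (EuclideanSpace ℝ (Fin n)), K ⊆ ⋃ i, t i → c ≤ ∑' i, ediam (t i) ^ s

/-- `|N_δ K| ≥ c δ ^ a` for all Kakeya sets `K` of `ℝ^n` and all `0 < δ < 1`, with one `c > 0`. -/
def UniformVolume (n : ℕ) (a : ℝ) : Prop :=
  ∃ c : ℝ, 0 < c ∧ ∀ K : Set (EuclideanSpace ℝ (Fin n)), IsKakeya K → ∀ δ : ℝ, 0 < δ → δ < 1 →
    ENNReal.ofReal (c * δ ^ a) ≤ volume (thickening δ K)

/-- `|N_δ K| < c δ ^ a` for every `c > 0` at arbitrarily small `δ > 0`. -/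
def SmallVolume {n : ℕ} (K : Set (EuclideanSpace ℝ (Fin n))) (a : ℝ) : Prop :=
  ∀ c r : ℝ, 0 < c → 0 < r → ∃ δ : ℝ, 0 < δ ∧ δ < r ∧
    volume (thickening δ K) < ENNReal.ofReal (c * δ ^ a)

theorem lower_le_of_small {n : ℕ} {K : Set (EuclideanSpace ℝ (Fin n))} (hK : IsCompact K)
    (hne : K.Nonempty) {s : ℝ} (h : SmallVolume K ((n : ℝ) - s)) : lowerMinkowski K ≤ (s : EReal) := by
  have h1 : (((n : ℝ) - s : ℝ) : EReal) ≤ limsup (ratio K) (𝓝[>] 0) := by
    refine le_limsup_of_frequently_le ?_ (by isBoundedDefault)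
    refine (frequently_small (p := fun δ => (((n : ℝ) - s : ℝ) : EReal) ≤ ratio K δ) fun k => ?_)
    obtain ⟨δ, h1, h2, h3⟩ := h 1 (1 / ((k : ℝ) + 1)) one_pos (by positivity)
    have h4 : δ < 1 := h2.trans_le (by
      rw [div_le_one (by positivity)]
      have : (0 : ℝ) ≤ k := Nat.cast_nonneg k
      linarith)
    rw [one_mul] at h3
    exact ⟨δ, h1, h2, ((lt_ratio hK hne h1 h4).1 h3).le⟩
  calc lowerMinkowski K ≤ (n : EReal) - (((n : ℝ) - s : ℝ) : EReal) := EReal.sub_le_sub le_rfl h1
    _ = (s : EReal) := by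
      rw [show ((n : EReal)) = (((n : ℝ)) : EReal) from rfl, ← EReal.coe_sub]
      congr 1
      ring

theorem small_of_lower_lt {n : ℕ} {K : Set (EuclideanSpace ℝ (Fin n))} (hK : IsCompact K)
    (hne : K.Nonempty) {s : ℝ} (h : lowerMinkowski K < (s : EReal)) :
    SmallVolume K ((n : ℝ) - s) := by
  intro c r hc hr
  have h1 : (((n : ℝ) - s : ℝ) : EReal) < limsup (ratio K) (𝓝[>] 0) := by
    by_contra hcon
    rw [not_lt] at hcon
    have h2 : (n : EReal) - (((n : ℝ) - s : ℝ) : EReal) ≤ lowerMinkowski K :=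
      EReal.sub_le_sub le_rfl hcon
    rw [show ((n : EReal)) = (((n : ℝ)) : EReal) from rfl, ← EReal.coe_sub,
      show (n : ℝ) - ((n : ℝ) - s) = s by ring] at h2
    exact absurd (h2.trans_lt h) (lt_irrefl _)
  obtain ⟨c', hc1, hc2⟩ := EReal.lt_iff_exists_real_btwn.1 h1
  have hcc : (n : ℝ) - s < c' := by exact_mod_cast hc1
  have hf : ∃ᶠ δ in 𝓝[>] (0 : ℝ), (c' : EReal) < ratio K δ :=
    frequently_lt_of_lt_limsup (by isBoundedDefault) hc2
  have h1 : Tendsto (fun δ : ℝ => δ ^ (c' - ((n : ℝ) - s))) (𝓝[>] 0) (𝓝 0) := by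
    have := (Real.continuousAt_rpow_const (0 : ℝ) (c' - ((n : ℝ) - s)) (Or.inr (by linarith))).tendsto
    rw [Real.zero_rpow (by linarith)] at this
    exact this.mono_left nhdsWithin_le_nhds
  have h2 : ∀ᶠ δ : ℝ in 𝓝[>] 0, δ ^ (c' - ((n : ℝ) - s)) < c := h1.eventually_lt_const hc
  have h3 : ∀ᶠ δ : ℝ in 𝓝[>] 0, δ < min r 1 :=
    (eventually_lt_nhds (lt_min hr one_pos)).filter_mono nhdsWithin_le_nhds
  obtain ⟨δ, ha, hb, hd, he⟩ := (hf.and_eventually (h2.and (h3.and self_mem_nhdsWithin))).exists
  have hδ : 0 < δ := he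
  have hδ1 : δ < 1 := hd.trans_le (min_le_right _ _)
  refine ⟨δ, hδ, hd.trans_le (min_le_left _ _), ?_⟩
  refine ((lt_ratio hK hne hδ hδ1).2 ha).trans_le (ENNReal.ofReal_le_ofReal ?_)
  have h6 : δ ^ c' = δ ^ (c' - ((n : ℝ) - s)) * δ ^ ((n : ℝ) - s) := by
    rw [← Real.rpow_add hδ]; ring_nf
  rw [h6]
  exact mul_le_mul_of_nonneg_right hb.le (by positivity)

theorem result (n : ℕ) (hn : 1 ≤ n) :
    -- the Kakeya sets are closed in the space of nonempty compact sets with the Hausdorff metric
    IsClosed {K : NonemptyCompacts (EuclideanSpace ℝ (Fin n)) |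
      IsKakeya (K : Set (EuclideanSpace ℝ (Fin n)))} ∧
    -- contents: uniform bound for all Kakeya sets, or typical Kakeya sets are null
    (∀ s : ℝ, 0 < s → UniformContent n s ∨
      ∀ᶠ K : KSpace n in residual (KSpace n), μH[s] (K : Set (EuclideanSpace ℝ (Fin n))) = 0) ∧
    -- volumes of neighbourhoods: uniform bound, or failure for typical Kakeya sets
    (∀ s : ℝ, UniformVolume n ((n : ℝ) - s) ∨
      ∀ᶠ K : KSpace n in residual (KSpace n),
        SmallVolume (K : Set (EuclideanSpace ℝ (Fin n))) ((n : ℝ) - s)) ∧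
    -- one critical Kakeya set
    (∃ K₀ : Set (EuclideanSpace ℝ (Fin n)), IsKakeya K₀ ∧
      (∀ K : Set (EuclideanSpace ℝ (Fin n)), IsKakeya K →
        dimH K₀ ≤ dimH K ∧ lowerMinkowski K₀ ≤ lowerMinkowski K) ∧
      upperMinkowski K₀ = (n : EReal) ∧
      (∀ᶠ K : KSpace n in residual (KSpace n),
        dimH (K : Set (EuclideanSpace ℝ (Fin n))) = dimH K₀ ∧
        lowerMinkowski (K : Set (EuclideanSpace ℝ (Fin n))) = lowerMinkowski K₀ ∧
        upperMinkowski (K : Set (EuclideanSpace ℝ (Fin n))) = (n : EReal)) ∧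
      (∀ s : ℝ, 0 < s → ENNReal.ofReal s < dimH K₀ → UniformContent n s) ∧
      (∀ s : ℝ, 0 < s → dimH K₀ < ENNReal.ofReal s →
        ∀ᶠ K : KSpace n in residual (KSpace n), μH[s] (K : Set (EuclideanSpace ℝ (Fin n))) = 0) ∧
      (∀ s : ℝ, (s : EReal) < lowerMinkowski K₀ → UniformVolume n ((n : ℝ) - s)) ∧
      (∀ s : ℝ, lowerMinkowski K₀ < (s : EReal) →
        ∀ᶠ K : KSpace n in residual (KSpace n),
          SmallVolume (K : Set (EuclideanSpace ℝ (Fin n))) ((n : ℝ) - s))) ∧
    -- Q1 for this `n`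
    ((∀ K : Set (EuclideanSpace ℝ (Fin n)), IsKakeya K → dimH K = n) ↔
      ∀ s : ℝ, 0 < s → s < n → UniformContent n s) ∧
    ((∀ K : Set (EuclideanSpace ℝ (Fin n)), IsKakeya K → dimH K = n) ↔
      ¬ IsMeagre {K : KSpace n | dimH (K : Set (EuclideanSpace ℝ (Fin n))) = n}) ∧
    -- Q2 for this `n`
    ((∀ K : Set (EuclideanSpace ℝ (Fin n)), IsKakeya K → lowerMinkowski K = (n : EReal)) ↔
      ∀ ε : ℝ, 0 < ε → UniformVolume n ε) ∧
    ((∀ K : Set (EuclideanSpace ℝ (Fin n)), IsKakeya K → lowerMinkowski K = (n : EReal)) ↔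
      ¬ IsMeagre {K : KSpace n |
        lowerMinkowski (K : Set (EuclideanSpace ℝ (Fin n))) = (n : EReal)}) := by
  have hne : ∀ K : Set (EuclideanSpace ℝ (Fin n)), IsKakeya K → K.Nonempty := fun K hK => by
    have : Nonempty (Fin n) := ⟨⟨0, hn⟩⟩
    obtain ⟨w, hw⟩ := exists_norm_eq (EuclideanSpace ℝ (Fin n)) (zero_le_one (α := ℝ))
    obtain ⟨a, ha⟩ := hK.2 w hw
    exact ⟨_, ha 0 le_rfl zero_le_one⟩
  have hdim : ∀ K : Set (EuclideanSpace ℝ (Fin n)), dimH K ≤ n := fun K => by
    refine (dimH_mono (subset_univ K)).trans ?_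
    rw [Real.dimH_univ_eq_finrank, finrank_euclideanSpace_fin]
  obtain ⟨m1, hm1, hm1'⟩ := exists_min
    (fun K : KSpace n => dimH (K : Set (EuclideanSpace ℝ (Fin n))))
    (fun K0 => typical_dimH K0.2)
  obtain ⟨m2, hm2, hm2'⟩ := exists_min
    (fun K : KSpace n => lowerMinkowski (K : Set (EuclideanSpace ℝ (Fin n))))
    (fun K0 => typical_lower K0.2 K0.1.nonempty)
  have hall : ∀ᶠ K : KSpace n in residual (KSpace n),
      dimH (K : Set (EuclideanSpace ℝ (Fin n))) = m1 ∧
      lowerMinkowski (K : Set (EuclideanSpace ℝ (Fin n))) = m2 ∧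
      upperMinkowski (K : Set (EuclideanSpace ℝ (Fin n))) = (n : EReal) :=
    hm1'.and (hm2'.and typical_upper)
  have hC : ∀ s : ℝ, 0 < s → UniformContent n s ∨
      ∀ᶠ K : KSpace n in residual (KSpace n), μH[s] (K : Set (EuclideanSpace ℝ (Fin n))) = 0 :=
    fun s hs => content_alternative hs
  have hV : ∀ s : ℝ, UniformVolume n ((n : ℝ) - s) ∨
      ∀ᶠ K : KSpace n in residual (KSpace n),
        SmallVolume (K : Set (EuclideanSpace ℝ (Fin n))) ((n : ℝ) - s) :=
    fun s => volume_alternative hn s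
  -- below the critical dimensions
  have hC' : ∀ s : ℝ, 0 < s → ENNReal.ofReal s < m1 → UniformContent n s := fun s hs hlt => by
    refine (hC s hs).resolve_right fun hcon => ?_
    obtain ⟨K, hK1, hK2⟩ := (dense_of_mem_residual (hcon.and hm1')).nonempty
    have h1 : μH[((s.toNNReal : ℝ≥0) : ℝ)] (K : Set (EuclideanSpace ℝ (Fin n))) = ∞ := by
      refine hausdorffMeasure_of_lt_dimH ?_
      have : dimH (K : Set (EuclideanSpace ℝ (Fin n))) = m1 := hK2
      rw [this]
      exact hlt
    rw [Real.coe_toNNReal s hs.le, hK1] at h1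
    exact absurd h1 (by simp)
  have hV' : ∀ s : ℝ, (s : EReal) < m2 → UniformVolume n ((n : ℝ) - s) := fun s hlt => by
    refine (hV s).resolve_right fun hcon => ?_
    obtain ⟨K, hK1, hK2⟩ := (dense_of_mem_residual (hcon.and hm2')).nonempty
    have h1 := lower_le_of_small K.2.1 K.1.nonempty hK1
    have : lowerMinkowski (K : Set (EuclideanSpace ℝ (Fin n))) = m2 := hK2
    rw [this] at h1
    exact absurd (hlt.trans_le h1) (lt_irrefl _)
  refine ⟨isClosed_kakeya n, hC, hV, ?_, ?_, ?_, ?_, ?_⟩
  · obtain ⟨K₀, h1, h2, h3⟩ := (dense_of_mem_residual hall).nonempty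
    refine ⟨K₀, K₀.2, fun K hK => ?_, h3, ?_, ?_, ?_, ?_, ?_⟩
    · rw [h1, h2]
      exact ⟨hm1 ⟨⟨⟨K, hK.1⟩, hne K hK⟩, hK⟩, hm2 ⟨⟨⟨K, hK.1⟩, hne K hK⟩, hK⟩⟩
    · rw [h1, h2]
      exact hall
    · rw [h1]
      exact hC'
    · intro s hs hlt
      have h4 : μH[((s.toNNReal : ℝ≥0) : ℝ)] (K₀ : Set (EuclideanSpace ℝ (Fin n))) = 0 :=
        hausdorffMeasure_of_dimH_lt hlt
      rw [Real.coe_toNNReal s hs.le] at h4
      exact typical_measure K₀.2 hs h4
    · rw [h2]
      exact hV'
    · rw [h2]
      intro s hlt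
      filter_upwards [hm2'] with K hK
      refine small_of_lower_lt K.2.1 K.1.nonempty ?_
      have : lowerMinkowski (K : Set (EuclideanSpace ℝ (Fin n))) = m2 := hK
      rw [this]
      exact hlt
  · constructor
    · intro h s hs hsn
      refine hC' s hs ?_
      obtain ⟨K, hK⟩ := (dense_of_mem_residual hm1').nonempty
      have h1 : dimH (K : Set (EuclideanSpace ℝ (Fin n))) = m1 := hK
      rw [← h1, h K K.2]
      rw [← ENNReal.ofReal_natCast]
      exact (ENNReal.ofReal_lt_ofReal_iff (by linarith)).2 hsn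
    · intro h K hK
      refine le_antisymm (hdim K) (le_of_forall_lt fun b hb => ?_)
      obtain ⟨q, hq1, hq2⟩ := ENNReal.lt_iff_exists_nnreal_btwn.1 hb
      refine hq1.trans_le ?_
      rcases eq_or_ne q 0 with hq | hq
      · rw [hq]; simp
      have hq0 : (0 : ℝ) < q := by
        have := pos_iff_ne_zero.2 hq
        exact_mod_cast this
      have hqn : (q : ℝ) < n := by exact_mod_cast hq2
      obtain ⟨c, hc, h1⟩ := h q hq0 hqn
      refine le_dimH_of_hausdorffMeasure_ne_zero fun h0 => ?_
      obtain ⟨t, -, ht1, ht2⟩ := small_of_zero hq0 h0 hc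
      exact absurd (ht2.trans_le (h1 K hK t ht1)) (lt_irrefl _)
  · rw [← iff_not_meagre (fun K : KSpace n => dimH (K : Set (EuclideanSpace ℝ (Fin n))))
      (fun K0 => typical_dimH K0.2) (fun K => hdim K)]
    exact ⟨fun h K => h K K.2, fun h K hK => h ⟨⟨⟨K, hK.1⟩, hne K hK⟩, hK⟩⟩
  · constructor
    · intro h ε hε
      have h1 := hV' ((n : ℝ) - ε) ?_
      · rwa [sub_sub_cancel] at h1
      · obtain ⟨K, hK⟩ := (dense_of_mem_residual hm2').nonempty
        have h1 : lowerMinkowski (K : Set (EuclideanSpace ℝ (Fin n))) = m2 := hK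
        rw [← h1, h K K.2, show ((n : EReal)) = (((n : ℝ)) : EReal) from rfl,
          EReal.coe_lt_coe_iff]
        linarith
    · intro h K hK
      refine le_antisymm (lowerMinkowski_le hK.1 (hne K hK)) ?_
      by_contra hcon
      rw [not_le] at hcon
      obtain ⟨q, hq1, hq2⟩ := EReal.lt_iff_exists_real_btwn.1 hcon
      have hqn : q < n := by exact_mod_cast hq2
      obtain ⟨c, hc, h1⟩ := h ((n : ℝ) - q) (by linarith)
      obtain ⟨δ, h2, h3, h4⟩ := small_of_lower_lt hK.1 (hne K hK) hq1 c 1 hc one_pos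
      exact absurd (h4.trans_le (h1 K hK δ h2 h3)) (lt_irrefl _)
  · rw [← iff_not_meagre
      (fun K : KSpace n => lowerMinkowski (K : Set (EuclideanSpace ℝ (Fin n))))
      (fun K0 => typical_lower K0.2 K0.1.nonempty)
      (fun K => lowerMinkowski_le K.2.1 K.1.nonempty)]
    exact ⟨fun h K => h K K.2, fun h K hK => h ⟨⟨⟨K, hK.1⟩, hne K hK⟩, hK⟩⟩

end Pool.Agent.Results.MP_b1773a_an.UniformKakeyaBounds
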